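import Pool.Agent.H188Z.Bridge

/-! Discrete spectrum of both de Rham Laplacians of the Hartogs triangle in degrees 1, 2, 3. -/

set_option autoImplicit false

namespace Pool.Agent.Results.MP_3d295c_an.ADiscrete

open Pool.Agent.H188Z Pool.Agent.H188Z.St

theorem result (𝕜 : Type) [RCLike 𝕜] :
    (∀ q : ℕ, HasGraph (St.dWeak 𝕜 St.hartogs q) St.IsWeakD ∧
      HasGraph (St.dStrong 𝕜 St.hartogs q) St.IsStrongD) ∧
    ∀ q : ℕ, q = 1 ∨ q = 2 ∨ q = 3 →
      HasDiscreteSpectrum (St.laplacian (St.dWeak 𝕜 St.hartogs) q) ∧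
      HasDiscreteSpectrum (St.laplacian (St.dStrong 𝕜 St.hartogs) q) :=
  ⟨st_graphs 𝕜, st_discrete 𝕜⟩

end Pool.Agent.Results.MP_3d295c_an.ADiscrete
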